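import Mathlib
import Pool.Agent.R592.Ba.Final

set_option autoImplicit false

/-!
MP_baa34e_lc: the weak Baumgartner axiom for `κ` implies `𝔟 > κ` unless `𝔟 < κ < non(M)` and
further restrictions hold.
-/

namespace Pool.Agent.Results.MP_baa34e_lc.BoundNonM

open Cardinal Pool.Agent.R592.Ba

/-- For uncountable `κ < 𝔠`, `BA⁻_κ` implies `κ < 𝔟`, or else `𝔟 < κ < non(M)`, `κ ≠ 𝔡`, the
cofinality of `κ` is neither `𝔟` nor the cofinality of `𝔡`, and (for uncountable cofinality)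
every set of `κ` functions has a bounded subset of size `κ`. -/
theorem result (κ : Cardinal.{0}) (h0 : ℵ₀ < κ) (hc : κ < 𝔠) (h : BAm κ (ℕ → Bool)) :
    κ < bnum ∨
      (bnum < κ ∧ κ < nonM ∧ κ ≠ dnum ∧ κ.ord.cof ≠ bnum ∧ κ.ord.cof ≠ dnum.ord.cof ∧
        (ℵ₀ < κ.ord.cof → ∀ E : Set (ℕ → ℕ), #E = κ →
          ∃ g : ℕ → ℕ, #({f ∈ E | ∀ n, f n ≤ g n} : Set (ℕ → ℕ)) = κ)) := by
  obtain ⟨h1, h2, h3, h4⟩ := necessary κ h0.le hc.le h
  rcases lt_trichotomy κ bnum with hlt | heq | hgt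
  · exact Or.inl hlt
  · exact absurd (by rw [heq]; exact b_facts.2.2.1) h2
  · refine Or.inr ⟨hgt, h1, ?_, h2, h3, h4⟩
    intro heq
    exact h3 (by rw [heq])

end Pool.Agent.Results.MP_baa34e_lc.BoundNonM
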